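import Pool.Agent.Q143.EC.Exit

set_option autoImplicit false

/-!
# A Ricci flow invariant curvature cone with the pinching property outside `C_IC1`

For every `n ≥ 4` there is a curvature cone which is Ricci flow invariant, has the pinching
property and is not contained in `C_IC1`; it can moreover be chosen maximal among the Ricci flow
invariant curvature cones with the pinching property.

The cone used in the proof is an ellipsoidal one.  Write `R = u Id + P + W`, where
`u = scal / (n (n - 1))`, `P` is the part of the trace free Ricci tensor and `W` the Weyl part.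
The cone is `|P|² + 4 |W|² ≤ (3.1325 + 0.14 n) u²`, `u ≥ 0`, with the norm of endomorphisms of
`Λ² ℝⁿ`.

Sketch of the proof.  Along `R' = Q(R)` one has `u' = (n - 1) u² + |P|² (n - 2) / (n (n - 1))`,
and the derivative of `|P|² + 4 |W|²` is controlled by (1) `|tr ρ³| ≤ |ρ|³` type bounds for the
trace free Ricci tensor `ρ`, where the fourth moment of `ρ` is kept, (2) the Cauchy-Schwarz bound
for `⟨W(ρ), ρ⟩`-type terms after projecting `ρ ∧ ρ` on the Weyl part, which involves the same fourth
moment, and (3) the cubic inequality `⟨W, Q(W)⟩ ≤ K |W|³` with `K = 1.4` for `n = 4` and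
`K = 1.811` for `n ≥ 5`, which follows from an estimate of the traces of the operators induced by
`W` on bivectors and on symmetric tensors.  The curvature operator `Id - c V`, with `V` the
extremal direction for the functional `R_1313 + R_2323`, lies in the cone and not in `C_IC1`.
-/

open Set Matrix
open Pool.Agent.H16R3.Curv

namespace Pool.Agent.Results.MP_952e48_gt.ConeOutsideIC1

/-- `⟪R (x ∧ y), z ∧ w⟫` for vectors `x, y, z, w` of `ℝⁿ`. -/
def val {n : ℕ} (R : Tensor4 n) (x y z w : Fin n → ℝ) : ℝ :=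
  ∑ i, ∑ j, ∑ k, ∑ l, R i j k l * x i * y j * z k * w l

/-- The cone `C_IC1`: the algebraic curvature operators with
`R_1313 + λ² R_1414 + R_2323 + λ² R_2424 - 2 λ R_1234 ≥ 0` for all orthonormal `e_1, …, e_4`
(here `e 0, …, e 3`) and all `λ ∈ [0, 1]`. -/
def CIC1 (n : ℕ) : Set (Tensor4 n) :=
  {R | R ∈ CurvOp n ∧ ∀ e : Fin 4 → Fin n → ℝ, (∀ a b, e a ⬝ᵥ e b = if a = b then 1 else 0) →
    ∀ lam ∈ Icc (0 : ℝ) 1,
      0 ≤ val R (e 0) (e 2) (e 0) (e 2) + lam ^ 2 * val R (e 0) (e 3) (e 0) (e 3) +
        val R (e 1) (e 2) (e 1) (e 2) + lam ^ 2 * val R (e 1) (e 3) (e 1) (e 3) -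
        2 * lam * val R (e 0) (e 1) (e 2) (e 3)}

lemma val_single {n : ℕ} (R : Tensor4 n) (a b c d : Fin n) :
    val R (Pi.single a 1) (Pi.single b 1) (Pi.single c 1) (Pi.single d 1) = R a b c d := by
  unfold val
  rw [Finset.sum_eq_single a, Finset.sum_eq_single b, Finset.sum_eq_single c,
    Finset.sum_eq_single d] <;> simp +contextual

/-- For every `n ≥ 4` there is a curvature cone that is Ricci flow invariant, has the pinching
property, is not contained in `C_IC1` and is maximal (with respect to inclusion) among the Ricci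
flow invariant curvature cones with the pinching property. -/
theorem result (n : ℕ) (hn : 4 ≤ n) :
    ∃ C : Set (Tensor4 n), IsPinchingCone n C ∧ ¬ C ⊆ CIC1 n ∧
      ∀ C' : Set (Tensor4 n), IsPinchingCone n C' → C ⊆ C' → C' = C := by
  have h01 : (⟨0, by omega⟩ : Fin n) ≠ ⟨1, by omega⟩ := by simp
  have h02 : (⟨0, by omega⟩ : Fin n) ≠ ⟨2, by omega⟩ := by simp
  have h12 : (⟨1, by omega⟩ : Fin n) ≠ ⟨2, by omega⟩ := by simp
  obtain ⟨R, hR, hneg⟩ := Q143.EC.exit hn h01 h02 h12
  obtain ⟨C, hC, hsub, hmax⟩ := exists_maximal (Q143.EC.eCone_isPinchingCone hn)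
  refine ⟨C, hC, fun hle => ?_, hmax⟩
  have h := (hle (hsub hR)).2
    (fun a => Pi.single (⟨a.1, by omega⟩ : Fin n) 1) (by
      intro a b
      by_cases hab : a = b
      · subst hab; simp
      · have : (⟨a.1, by omega⟩ : Fin n) ≠ ⟨b.1, by omega⟩ := by
          intro h
          exact hab (Fin.ext (by simpa using h))
        simp [hab, this]) 0 ⟨le_rfl, zero_le_one⟩
  simp only [val_single] at h
  norm_num at h
  have e : R ⟨0, by omega⟩ ⟨2, by omega⟩ ⟨0, by omega⟩ ⟨2, by omega⟩ +
      R ⟨1, by omega⟩ ⟨2, by omega⟩ ⟨1, by omega⟩ ⟨2, by omega⟩ < 0 := hneg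
  linarith

end Pool.Agent.Results.MP_952e48_gt.ConeOutsideIC1
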